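import Pool.Agent.Run7.h450.CE.Iface

/-!
Piece GOOD of helper450's project CE (MP_e09b77_an, coloured entropy of the canonical map).
Author: helper559.
-/

set_option autoImplicit false
open Filter Topology
open scoped ComplexOrder
open Run7.h450.CE

namespace Run7.h559.CE

section basic

variable {N : ℕ} {A : Matrix (Fin N) (Fin N) ℕ} {B : Type} [CStarAlgebra B] {S : Fin N → B}

theorem isom' (h : CK A S) (i : Fin N) : star (S i) * S i * star (S i) = star (S i) := by
  have := congrArg star (h.isom i)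
  simpa [star_mul, mul_assoc] using this

/-- orthogonality of the ranges -/
theorem orth (h : CK A S) {i k : Fin N} (hik : i ≠ k) : star (S k) * S i = 0 := by
  let _ := CStarAlgebra.spectralOrder B
  have _ := CStarAlgebra.spectralOrderedRing B
  have hP : ∀ j, star (PP S j) = PP S j := fun j => by simp [PP]
  have hPP : ∀ j, PP S j * PP S j = PP S j := fun j => by
    unfold PP
    rw [← mul_assoc, h.isom j]
  have hsum : ∑ j, PP S j = 1 := h.sum_one
  have h1 : ∑ j, star (PP S j * PP S i) * (PP S j * PP S i) = PP S i := by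
    have : ∀ j, star (PP S j * PP S i) * (PP S j * PP S i) = PP S i * PP S j * PP S i := by
      intro j
      rw [star_mul, hP, hP, mul_assoc, ← mul_assoc (PP S j) (PP S j), hPP, mul_assoc]
    rw [Finset.sum_congr rfl fun j _ => this j, ← Finset.sum_mul, ← Finset.mul_sum, hsum,
      mul_one, hPP]
  have h2 : ∑ j ∈ Finset.univ.erase i, star (PP S j * PP S i) * (PP S j * PP S i) = 0 := by
    rw [← Finset.add_sum_erase _ _ (Finset.mem_univ i)] at h1
    have e : star (PP S i * PP S i) * (PP S i * PP S i) = PP S i := by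
      rw [hPP, hP, hPP]
    rw [e] at h1
    exact left_eq_add.1 h1.symm
  have h3 := (Finset.sum_eq_zero_iff_of_nonneg fun j _ => star_mul_self_nonneg _).1 h2 k
    (Finset.mem_erase.2 ⟨hik.symm, Finset.mem_univ _⟩)
  have h4 : PP S k * PP S i = 0 := CStarRing.star_mul_self_eq_zero_iff _ |>.1 h3
  calc star (S k) * S i = star (S k) * S k * star (S k) * (S i * star (S i) * S i) := by
        rw [isom' h, h.isom]
    _ = star (S k) * (PP S k * PP S i) * S i := by
        unfold PP
        simp only [mul_assoc]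
    _ = 0 := by rw [h4, mul_zero, zero_mul]

theorem QQ_mul (h : CK A S) (i k : Fin N) :
    star (S i) * S i * S k = (A i k : ℂ) • S k := by
  rw [h.rel, Finset.sum_mul, Finset.sum_eq_single k]
  · rw [smul_mul_assoc, h.isom]
  · intro j _ hj
    rw [smul_mul_assoc, mul_assoc, orth h hj.symm, mul_zero, smul_zero]
  · intro hk
    exact absurd (Finset.mem_univ k) hk

theorem mul_QQ (h : CK A S) (i k : Fin N) :
    star (S k) * (star (S i) * S i) = (A i k : ℂ) • star (S k) := by
  have := congrArg star (QQ_mul h i k)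
  simpa [star_mul, mul_assoc] using this

theorem norm_QQ (h : CK A S) (i : Fin N) : ‖star (S i) * S i‖ ≤ 1 := by
  have h1 : star (star (S i) * S i) * (star (S i) * S i) = star (S i) * S i := by
    rw [star_mul, star_star, ← mul_assoc, isom' h]
  have h2 : ‖star (S i) * S i‖ * ‖star (S i) * S i‖ = ‖star (S i) * S i‖ := by
    rw [← CStarRing.norm_star_mul_self, h1]
  by_contra hcon
  push Not at hcon
  nlinarith

theorem norm_S (h : CK A S) (i : Fin N) : ‖S i‖ ≤ 1 := by
  have h1 := norm_QQ h i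
  rw [CStarRing.norm_star_mul_self] at h1
  by_contra hcon
  push Not at hcon
  nlinarith

/-- the canonical map is a contraction -/
theorem norm_theta (h : CK A S) (x : B) : ‖theta S x‖ ≤ ‖x‖ := by
  let _ := CStarAlgebra.spectralOrder B
  have _ := CStarAlgebra.spectralOrderedRing B
  have h1 : theta S x * star (theta S x) =
      ∑ i, S i * (x * (star (S i) * S i) * star x) * star (S i) := by
    unfold theta
    rw [star_sum, Finset.sum_mul]
    refine Finset.sum_congr rfl fun i _ => ?_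
    rw [Finset.mul_sum, Finset.sum_eq_single i]
    · simp only [star_mul, star_star, mul_assoc]
    · intro j _ hj
      have : S i * x * star (S i) * star (S j * x * star (S j)) =
          S i * x * (star (S i) * S j) * (star x * star (S j)) := by
        simp only [star_mul, star_star, mul_assoc]
      rw [this, orth h hj, mul_zero, zero_mul]
    · intro hk
      exact absurd (Finset.mem_univ i) hk
  have h2 : theta S x * star (theta S x) ≤ algebraMap ℝ B (‖x‖ ^ 2) := by
    rw [h1]
    have h3 : ∀ i, S i * (x * (star (S i) * S i) * star x) * star (S i) ≤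
        algebraMap ℝ B (‖x‖ ^ 2) * (S i * star (S i)) := by
      intro i
      have h4 : star (S i) * S i ≤ 1 := by
        have h5 : (1 - star (S i) * S i) = star (1 - star (S i) * S i) * (1 - star (S i) * S i) := by
          have h6 : star (S i) * S i * (star (S i) * S i) = star (S i) * S i := by
            rw [← mul_assoc, isom' h]
          simp only [star_sub, star_one, star_mul, star_star, mul_sub, sub_mul, one_mul, mul_one]
          rw [h6]
          abel
        have h6 : 0 ≤ 1 - star (S i) * S i := by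
          rw [h5]
          exact star_mul_self_nonneg _
        exact sub_nonneg.1 h6
      have h5 : x * (star (S i) * S i) * star x ≤ algebraMap ℝ B (‖x‖ ^ 2) := by
        refine (star_right_conjugate_le_conjugate h4 x).trans ?_
        rw [mul_one]
        exact CStarAlgebra.mul_star_le_algebraMap_norm_sq
      refine (star_right_conjugate_le_conjugate h5 (S i)).trans (le_of_eq ?_)
      rw [← Algebra.commutes, mul_assoc]
    refine (Finset.sum_le_sum fun i _ => h3 i).trans (le_of_eq ?_)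
    rw [← Finset.mul_sum, h.sum_one, mul_one]
  have h3 : ‖theta S x * star (theta S x)‖ ≤ ‖x‖ ^ 2 := by
    refine (CStarAlgebra.norm_le_norm_of_nonneg_of_le (mul_star_self_nonneg _) h2).trans ?_
    rw [norm_algebraMap]
    have : ‖(‖x‖ ^ 2 : ℝ)‖ = ‖x‖ ^ 2 := by
      rw [Real.norm_eq_abs, abs_of_nonneg (by positivity)]
    rw [this]
    have h4 : ‖(1 : B)‖ ≤ 1 := by
      have h5 : ‖(1 : B)‖ * ‖(1 : B)‖ = ‖(1 : B)‖ := by
        rw [← CStarRing.norm_star_mul_self, star_one, one_mul]
      by_contra hcon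
      push Not at hcon
      nlinarith
    exact mul_le_of_le_one_right (by positivity) h4
  rw [CStarRing.norm_self_mul_star] at h3
  exact le_of_sq_le_sq (by nlinarith) (norm_nonneg _)

theorem norm_theta_iter (h : CK A S) (j : ℕ) (x : B) : ‖(theta S)^[j] x‖ ≤ ‖x‖ := by
  induction j with
  | zero => exact le_rfl
  | succ j ih =>
    rw [Function.iterate_succ_apply']
    exact (norm_theta h _).trans ih

end basic

section ops

variable {N : ℕ} {B : Type} [CStarAlgebra B] (S : Fin N → B)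

/-- the left half of `Tst` -/
noncomputable def Lo (D : B →ₗ[ℂ] B) : B →ₗ[ℂ] B where
  toFun x := ∑ i, S i * D (star (S i) * x)
  map_add' x y := by
    simp only [mul_add, map_add, Finset.sum_add_distrib]
  map_smul' c x := by
    simp only [mul_smul_comm, map_smul, Finset.smul_sum, RingHom.id_apply]

/-- the right half of `Tst` -/
noncomputable def Ro (D : B →ₗ[ℂ] B) : B →ₗ[ℂ] B where
  toFun x := ∑ j, D (x * S j) * star (S j)
  map_add' x y := by
    simp only [add_mul, map_add, Finset.sum_add_distrib]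
  map_smul' c x := by
    simp only [smul_mul_assoc, map_smul, Finset.smul_sum, RingHom.id_apply]

/-- `Tst` on linear maps -/
noncomputable def To (D : B →ₗ[ℂ] B) : B →ₗ[ℂ] B := Lo S (Ro S D)

theorem Lo_apply (D : B →ₗ[ℂ] B) (x : B) : Lo S D x = ∑ i, S i * D (star (S i) * x) := rfl

theorem Ro_apply (D : B →ₗ[ℂ] B) (x : B) : Ro S D x = ∑ j, D (x * S j) * star (S j) := rfl

theorem To_coe (D : B →ₗ[ℂ] B) : (To S D : B → B) = Tst S D := by
  funext x
  show Lo S (Ro S D) x = _
  rw [Lo_apply]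
  unfold Tst
  refine Finset.sum_congr rfl fun i _ => ?_
  rw [Ro_apply, Finset.mul_sum]
  refine Finset.sum_congr rfl fun j _ => ?_
  rw [← mul_assoc]

theorem Lo_Ro (D : B →ₗ[ℂ] B) : Lo S (Ro S D) = Ro S (Lo S D) := by
  ext x
  rw [Lo_apply, Ro_apply]
  simp only [Lo_apply, Ro_apply, Finset.mul_sum, Finset.sum_mul]
  rw [Finset.sum_comm]
  refine Finset.sum_congr rfl fun i _ => Finset.sum_congr rfl fun j _ => ?_
  simp only [mul_assoc]

theorem To_iter_coe (D : B →ₗ[ℂ] B) (m : ℕ) :
    (((To S)^[m] D : B →ₗ[ℂ] B) : B → B) = (Tst S)^[m] D := by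
  induction m with
  | zero => rfl
  | succ m ih =>
    rw [Function.iterate_succ_apply', Function.iterate_succ_apply', To_coe, ih]

theorem To_Ro (D : B →ₗ[ℂ] B) : To S (Ro S D) = Ro S (To S D) := by
  unfold To
  rw [Lo_Ro S (Ro S D)]

theorem To_Lo (D : B →ₗ[ℂ] B) : To S (Lo S D) = Lo S (To S D) := by
  unfold To
  rw [← Lo_Ro S D]

theorem iter_Ro (D : B →ₗ[ℂ] B) (m : ℕ) : (To S)^[m] (Ro S D) = Ro S ((To S)^[m] D) := by
  induction m with
  | zero => rfl
  | succ m ih =>
    rw [Function.iterate_succ_apply', Function.iterate_succ_apply', ih, To_Ro]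

theorem iter_Lo (D : B →ₗ[ℂ] B) (m : ℕ) : (To S)^[m] (Lo S D) = Lo S ((To S)^[m] D) := by
  induction m with
  | zero => rfl
  | succ m ih =>
    rw [Function.iterate_succ_apply', Function.iterate_succ_apply', ih, To_Lo]

variable {S} {A : Matrix (Fin N) (Fin N) ℕ}

theorem Lo_Q (h : CK A S) (D : B →ₗ[ℂ] B) (i : Fin N) (x : B) :
    Lo S D (star (S i) * S i * x) = star (S i) * S i * Lo S D x := by
  rw [Lo_apply, Lo_apply, Finset.mul_sum]
  refine Finset.sum_congr rfl fun k _ => ?_
  rw [← mul_assoc, mul_QQ h, smul_mul_assoc, map_smul, mul_smul_comm, ← mul_assoc, QQ_mul h,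
    smul_mul_assoc]

theorem Ro_Q (h : CK A S) (D : B →ₗ[ℂ] B) (i : Fin N) (x : B) :
    Ro S D (x * (star (S i) * S i)) = Ro S D x * (star (S i) * S i) := by
  rw [Ro_apply, Ro_apply, Finset.sum_mul]
  refine Finset.sum_congr rfl fun k _ => ?_
  rw [mul_assoc x, QQ_mul h, mul_smul_comm, map_smul, smul_mul_assoc, mul_assoc, mul_QQ h,
    mul_smul_comm]

theorem Lo_Lo_S (h : CK A S) (D : B →ₗ[ℂ] B) (i : Fin N) (x : B) :
    Lo S (Lo S D) (S i * x) = S i * Lo S D x := by
  rw [Lo_apply, Finset.sum_eq_single i]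
  · rw [← mul_assoc, Lo_Q h, ← mul_assoc, ← mul_assoc, h.isom]
  · intro k _ hk
    rw [← mul_assoc, orth h hk.symm, zero_mul, map_zero, mul_zero]
  · intro hk
    exact absurd (Finset.mem_univ i) hk

theorem Ro_Ro_S (h : CK A S) (D : B →ₗ[ℂ] B) (i : Fin N) (x : B) :
    Ro S (Ro S D) (x * star (S i)) = Ro S D x * star (S i) := by
  rw [Ro_apply, Finset.sum_eq_single i]
  · rw [mul_assoc x, Ro_Q h, mul_assoc, isom' h]
  · intro k _ hk
    rw [mul_assoc x, orth h hk, mul_zero, map_zero, zero_mul]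
  · intro hk
    exact absurd (Finset.mem_univ i) hk

theorem Lo_star (h : CK A S) (D : B →ₗ[ℂ] B) (k : Fin N) (x : B) :
    Lo S D (star (S k) * x) = star (S k) * Lo S (Lo S D) x := by
  rw [Lo_apply S (Lo S D), Finset.mul_sum, Finset.sum_eq_single k]
  · rw [← mul_assoc, ← Lo_Q h, ← mul_assoc, isom' h]
  · intro i _ hi
    rw [← mul_assoc, orth h hi, zero_mul]
  · intro hk
    exact absurd (Finset.mem_univ k) hk

theorem To_one (h : CK A S) (D : B →ₗ[ℂ] B) :
    To S D 1 = ∑ i, S i * D (star (S i) * S i) * star (S i) := by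
  show Lo S (Ro S D) 1 = _
  rw [Lo_apply]
  refine Finset.sum_congr rfl fun i _ => ?_
  rw [Ro_apply, mul_one, Finset.sum_eq_single i]
  · rw [mul_assoc]
  · intro j _ hj
    rw [orth h hj, map_zero, zero_mul]
  · intro hk
    exact absurd (Finset.mem_univ i) hk

theorem To_To_one (h : CK A S) (D : B →ₗ[ℂ] B) :
    To S (To S D) 1 = theta S (To S D 1) := by
  rw [To_one h]
  unfold theta
  refine Finset.sum_congr rfl fun i _ => ?_
  have : To S D (star (S i) * S i) = star (S i) * S i * To S D 1 := by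
    have := Lo_Q h (Ro S D) i 1
    rw [mul_one] at this
    exact this
  rw [this, ← mul_assoc (S i), ← mul_assoc (S i), h.isom]

theorem iter_one (h : CK A S) (D : B →ₗ[ℂ] B) (n : ℕ) :
    (To S)^[n + 1] D 1 = (theta S)^[n] (To S D 1) := by
  induction n with
  | zero => rfl
  | succ n ih =>
    rw [Function.iterate_succ_apply', Function.iterate_succ_apply', To_To_one h,
      ← Function.iterate_succ_apply' (To S), ih, ← Function.iterate_succ_apply' (theta S)]

theorem iter_S (h : CK A S) (D : B →ₗ[ℂ] B) (n : ℕ) (i : Fin N) (x : B) :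
    (To S)^[n + 2] D (S i * x) = S i * (To S)^[n + 1] (Ro S D) x := by
  rw [Function.iterate_succ_apply', Function.iterate_succ_apply']
  have e : To S (To S ((To S)^[n] D)) = Lo S (Lo S (Ro S (Ro S ((To S)^[n] D)))) := by
    show Lo S (Ro S (Lo S (Ro S ((To S)^[n] D)))) = _
    rw [← Lo_Ro]
  rw [e, Lo_Lo_S h]
  congr 1
  rw [Function.iterate_succ_apply', iter_Ro]
  rfl

theorem iter_star (h : CK A S) (D : B →ₗ[ℂ] B) (n : ℕ) (i : Fin N) (x : B) :
    (To S)^[n + 1] D (star (S i) * x) = star (S i) * (To S)^[n + 1] (Lo S D) x := by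
  rw [Function.iterate_succ_apply', Function.iterate_succ_apply', iter_Lo, To_Lo]
  exact Lo_star h _ i x

theorem To_To_theta (h : CK A S) (D : B →ₗ[ℂ] B) (x : B) :
    To S (To S D) (theta S x) = theta S (To S D x) := by
  unfold theta
  rw [map_sum]
  refine Finset.sum_congr rfl fun i _ => ?_
  have e : To S (To S D) = Lo S (Lo S (Ro S (Ro S D))) := by
    show Lo S (Ro S (Lo S (Ro S D))) = _
    rw [← Lo_Ro]
  rw [e, mul_assoc, Lo_Lo_S h]
  have e2 : Lo S (Ro S (Ro S D)) = Ro S (Ro S (Lo S D)) := by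
    rw [Lo_Ro, Lo_Ro]
  rw [e2, Ro_Ro_S h, ← mul_assoc, ← Lo_Ro]
  rfl

theorem iter_theta (h : CK A S) (D : B →ₗ[ℂ] B) (x : B) : ∀ j m : ℕ, j < m →
    (To S)^[m] D ((theta S)^[j] x) = (theta S)^[j] ((To S)^[m - j] D x) := by
  intro j
  induction j with
  | zero => intro m _; rfl
  | succ j ih =>
    intro m hm
    obtain ⟨n, rfl⟩ : ∃ n, m = n + 2 := ⟨m - 2, by omega⟩
    rw [Function.iterate_succ_apply' (theta S), Function.iterate_succ_apply',
      Function.iterate_succ_apply', To_To_theta h, ← Function.iterate_succ_apply' (To S),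
      ih (n + 1) (by omega), Function.iterate_succ_apply' (theta S)]
    congr 3
    have : n + 1 - j = n + 2 - (j + 1) := by omega
    rw [this]

/-- the good elements -/
def Gd (S : Fin N → B) (b : B) : Prop := ∀ ε C : ℝ, 0 < ε → 0 < C →
  ∃ (E : Finset B) (δ : ℝ) (r : ℕ), 0 < δ ∧ ∀ D : B →ₗ[ℂ] B,
    (∀ (m : ℕ) (z : B), ‖(To S)^[m] D z‖ ≤ C * ‖z‖) → (∀ z ∈ E, ‖D z‖ ≤ δ) →
    ∀ m : ℕ, r ≤ m → ‖(To S)^[m] D b‖ ≤ ε

theorem Gd_add {a b : B} (ha : Gd S a) (hb : Gd S b) : Gd S (a + b) := by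
  classical
  intro ε C hε hC
  obtain ⟨E1, δ1, r1, h1, H1⟩ := ha (ε / 2) C (by linarith) hC
  obtain ⟨E2, δ2, r2, h2, H2⟩ := hb (ε / 2) C (by linarith) hC
  refine ⟨E1 ∪ E2, min δ1 δ2, max r1 r2, lt_min h1 h2, fun D hD hE m hm => ?_⟩
  rw [map_add]
  have e1 := H1 D hD (fun z hz => (hE z (Finset.mem_union_left _ hz)).trans (min_le_left _ _)) m
    ((le_max_left _ _).trans hm)
  have e2 := H2 D hD (fun z hz => (hE z (Finset.mem_union_right _ hz)).trans (min_le_right _ _)) m
    ((le_max_right _ _).trans hm)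
  exact (norm_add_le _ _).trans (by linarith)

theorem Gd_smul {a : B} (c : ℂ) (ha : Gd S a) : Gd S (c • a) := by
  intro ε C hε hC
  obtain ⟨E, δ, r, h1, H⟩ := ha (ε / (‖c‖ + 1)) C (by positivity) hC
  refine ⟨E, δ, r, h1, fun D hD hE m hm => ?_⟩
  rw [map_smul, norm_smul]
  have h2 := H D hD hE m hm
  have h3 : ‖c‖ * ‖(To S)^[m] D a‖ ≤ ‖c‖ * (ε / (‖c‖ + 1)) :=
    mul_le_mul_of_nonneg_left h2 (norm_nonneg _)
  refine h3.trans ?_
  rw [mul_div_assoc', div_le_iff₀ (by positivity)]
  nlinarith [norm_nonneg c]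

theorem Gd_closed {b : B} (h : ∀ η : ℝ, 0 < η → ∃ a, Gd S a ∧ ‖b - a‖ ≤ η) : Gd S b := by
  intro ε C hε hC
  obtain ⟨a, ha, hab⟩ := h (ε / (2 * C)) (by positivity)
  obtain ⟨E, δ, r, h1, H⟩ := ha (ε / 2) C (by linarith) hC
  refine ⟨E, δ, r, h1, fun D hD hE m hm => ?_⟩
  have e1 := H D hD hE m hm
  have e2 := hD m (b - a)
  have e3 : C * ‖b - a‖ ≤ ε / 2 := by
    have := mul_le_mul_of_nonneg_left hab hC.le
    have e : C * (ε / (2 * C)) = ε / 2 := by
      field_simp
    linarith
  have e4 : (To S)^[m] D b = (To S)^[m] D a + (To S)^[m] D (b - a) := by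
    rw [← map_add, add_sub_cancel]
  rw [e4]
  exact (norm_add_le _ _).trans (by linarith)

theorem Gd_one (h : CK A S) : Gd S (1 : B) := by
  classical
  intro ε C hε hC
  refine ⟨Finset.univ.image fun i => star (S i) * S i, ε / (N + 1), 1, by positivity,
    fun D hD hE m hm => ?_⟩
  obtain ⟨n, rfl⟩ : ∃ n, m = n + 1 := ⟨m - 1, by omega⟩
  rw [iter_one h]
  refine (norm_theta_iter h n _).trans ?_
  rw [To_one h]
  calc ‖∑ i, S i * D (star (S i) * S i) * star (S i)‖
      ≤ ∑ i : Fin N, ‖S i * D (star (S i) * S i) * star (S i)‖ := norm_sum_le _ _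
    _ ≤ ∑ i : Fin N, ε / (N + 1) := by
        refine Finset.sum_le_sum fun i _ => ?_
        have h1 := hE (star (S i) * S i) (Finset.mem_image_of_mem _ (Finset.mem_univ i))
        have h2 : ‖star (S i)‖ ≤ 1 := by rw [norm_star]; exact norm_S h i
        calc ‖S i * D (star (S i) * S i) * star (S i)‖
            ≤ ‖S i‖ * ‖D (star (S i) * S i)‖ * ‖star (S i)‖ :=
              (norm_mul_le _ _).trans (mul_le_mul_of_nonneg_right (norm_mul_le _ _) (norm_nonneg _))
          _ ≤ 1 * (ε / (N + 1)) * 1 := by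
              refine mul_le_mul (mul_le_mul (norm_S h i) h1 (norm_nonneg _) zero_le_one) h2
                (norm_nonneg _) (by positivity)
          _ = ε / (N + 1) := by ring
    _ = N * (ε / (N + 1)) := by
        rw [Finset.sum_const, Finset.card_univ, Fintype.card_fin, nsmul_eq_mul]
    _ ≤ ε := by
        rw [mul_div_assoc', div_le_iff₀ (by positivity)]
        nlinarith

theorem norm_Ro_le (h : CK A S) (D : B →ₗ[ℂ] B) (z : B) (K : ℝ)
    (hK : ∀ j, ‖D (z * S j)‖ ≤ K) : ‖Ro S D z‖ ≤ N * K := by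
  rw [Ro_apply]
  calc ‖∑ j, D (z * S j) * star (S j)‖ ≤ ∑ j : Fin N, ‖D (z * S j) * star (S j)‖ := norm_sum_le _ _
    _ ≤ ∑ j : Fin N, K := by
        refine Finset.sum_le_sum fun j _ => ?_
        have h2 : ‖star (S j)‖ ≤ 1 := by rw [norm_star]; exact norm_S h j
        calc ‖D (z * S j) * star (S j)‖ ≤ ‖D (z * S j)‖ * ‖star (S j)‖ := norm_mul_le _ _
          _ ≤ ‖D (z * S j)‖ * 1 := mul_le_mul_of_nonneg_left h2 (norm_nonneg _)
          _ ≤ K := by rw [mul_one]; exact hK j
    _ = N * K := by rw [Finset.sum_const, Finset.card_univ, Fintype.card_fin, nsmul_eq_mul]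

theorem norm_Lo_le (h : CK A S) (D : B →ₗ[ℂ] B) (z : B) (K : ℝ)
    (hK : ∀ j, ‖D (star (S j) * z)‖ ≤ K) : ‖Lo S D z‖ ≤ N * K := by
  rw [Lo_apply]
  calc ‖∑ j, S j * D (star (S j) * z)‖ ≤ ∑ j : Fin N, ‖S j * D (star (S j) * z)‖ :=
        norm_sum_le _ _
    _ ≤ ∑ j : Fin N, K := by
        refine Finset.sum_le_sum fun j _ => ?_
        calc ‖S j * D (star (S j) * z)‖ ≤ ‖S j‖ * ‖D (star (S j) * z)‖ := norm_mul_le _ _
          _ ≤ 1 * ‖D (star (S j) * z)‖ := mul_le_mul_of_nonneg_right (norm_S h j) (norm_nonneg _)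
          _ ≤ K := by rw [one_mul]; exact hK j
    _ = N * K := by rw [Finset.sum_const, Finset.card_univ, Fintype.card_fin, nsmul_eq_mul]

theorem Gd_S (h : CK A S) {b : B} (i : Fin N) (hb : Gd S b) : Gd S (S i * b) := by
  classical
  intro ε C hε hC
  obtain ⟨E, δ, r, h1, H⟩ := hb ε ((N + 1) * C) hε (by positivity)
  refine ⟨E.biUnion fun e => Finset.univ.image fun j => e * S j, δ / (N + 1), r + 2,
    by positivity, fun D hD hE m hm => ?_⟩
  obtain ⟨n, rfl⟩ : ∃ n, m = n + 2 := ⟨m - 2, by omega⟩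
  rw [iter_S h]
  have h2 := H (Ro S D) (fun m z => by
    rw [iter_Ro]
    refine (norm_Ro_le h _ z (C * ‖z‖) fun j => ?_).trans ?_
    · refine (hD m _).trans (mul_le_mul_of_nonneg_left ?_ hC.le)
      exact (norm_mul_le _ _).trans (mul_le_of_le_one_right (norm_nonneg _) (norm_S h j))
    · have : 0 ≤ C * ‖z‖ := by positivity
      nlinarith) (fun z hz => by
    refine (norm_Ro_le h _ z (δ / (N + 1)) fun j => ?_).trans ?_
    · exact hE _ (Finset.mem_biUnion.2 ⟨z, hz, Finset.mem_image_of_mem _ (Finset.mem_univ j)⟩)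
    · rw [mul_div_assoc', div_le_iff₀ (by positivity)]
      nlinarith) (n + 1) (by omega)
  calc ‖S i * (To S)^[n + 1] (Ro S D) b‖ ≤ ‖S i‖ * ‖(To S)^[n + 1] (Ro S D) b‖ :=
        norm_mul_le _ _
    _ ≤ 1 * ‖(To S)^[n + 1] (Ro S D) b‖ := mul_le_mul_of_nonneg_right (norm_S h i) (norm_nonneg _)
    _ ≤ ε := by rw [one_mul]; exact h2

theorem Gd_star (h : CK A S) {b : B} (i : Fin N) (hb : Gd S b) : Gd S (star (S i) * b) := by
  classical
  intro ε C hε hC
  obtain ⟨E, δ, r, h1, H⟩ := hb ε ((N + 1) * C) hε (by positivity)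
  refine ⟨E.biUnion fun e => Finset.univ.image fun j => star (S j) * e, δ / (N + 1), r + 1,
    by positivity, fun D hD hE m hm => ?_⟩
  obtain ⟨n, rfl⟩ : ∃ n, m = n + 1 := ⟨m - 1, by omega⟩
  rw [iter_star h]
  have h2 := H (Lo S D) (fun m z => by
    rw [iter_Lo]
    refine (norm_Lo_le h _ z (C * ‖z‖) fun j => ?_).trans ?_
    · refine (hD m _).trans (mul_le_mul_of_nonneg_left ?_ hC.le)
      refine (norm_mul_le _ _).trans (mul_le_of_le_one_left (norm_nonneg _) ?_)
      rw [norm_star]
      exact norm_S h j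
    · have : 0 ≤ C * ‖z‖ := by positivity
      nlinarith) (fun z hz => by
    refine (norm_Lo_le h _ z (δ / (N + 1)) fun j => ?_).trans ?_
    · exact hE _ (Finset.mem_biUnion.2 ⟨z, hz, Finset.mem_image_of_mem _ (Finset.mem_univ j)⟩)
    · rw [mul_div_assoc', div_le_iff₀ (by positivity)]
      nlinarith) (n + 1) (by omega)
  have h3 : ‖star (S i)‖ ≤ 1 := by rw [norm_star]; exact norm_S h i
  calc ‖star (S i) * (To S)^[n + 1] (Lo S D) b‖ ≤
        ‖star (S i)‖ * ‖(To S)^[n + 1] (Lo S D) b‖ := norm_mul_le _ _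
    _ ≤ 1 * ‖(To S)^[n + 1] (Lo S D) b‖ := mul_le_mul_of_nonneg_right h3 (norm_nonneg _)
    _ ≤ ε := by rw [one_mul]; exact h2

theorem Gd_all (h : CK A S) (b : B) : Gd S b := by
  have h1 : ∀ x ∈ StarAlgebra.adjoin ℂ (Set.range S),
      (∀ b, Gd S b → Gd S (x * b)) ∧ ∀ b, Gd S b → Gd S (star x * b) := by
    intro x hx
    induction hx using StarAlgebra.adjoin_induction with
    | mem x hx =>
      obtain ⟨i, rfl⟩ := hx
      exact ⟨fun b hb => Gd_S h i hb, fun b hb => Gd_star h i hb⟩
    | algebraMap c =>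
      constructor
      · intro b hb
        rw [← Algebra.smul_def]
        exact Gd_smul c hb
      · intro b hb
        rw [← algebraMap_star_comm, ← Algebra.smul_def]
        exact Gd_smul _ hb
    | add x y _ _ hx hy =>
      constructor
      · intro b hb
        rw [add_mul]
        exact Gd_add (hx.1 b hb) (hy.1 b hb)
      · intro b hb
        rw [star_add, add_mul]
        exact Gd_add (hx.2 b hb) (hy.2 b hb)
    | mul x y _ _ hx hy =>
      constructor
      · intro b hb
        rw [mul_assoc]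
        exact hx.1 _ (hy.1 b hb)
      · intro b hb
        rw [star_mul, mul_assoc]
        exact hy.2 _ (hx.2 b hb)
    | star x _ hx =>
      refine ⟨hx.2, ?_⟩
      rw [star_star]
      exact hx.1
  have h2 : b ∈ (StarAlgebra.adjoin ℂ (Set.range S)).topologicalClosure := by
    rw [h.gen]
    exact StarSubalgebra.mem_top
  have h3 : b ∈ closure ((StarAlgebra.adjoin ℂ (Set.range S)) : Set B) := h2
  refine Gd_closed fun η hη => ?_
  obtain ⟨a, ha, hab⟩ := Metric.mem_closure_iff.1 h3 η hη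
  refine ⟨a, ?_, ?_⟩
  · have := (h1 a ha).1 1 (Gd_one h)
    rwa [mul_one] at this
  · rw [← dist_eq_norm]
    exact hab.le

end ops

theorem t_GOOD : S_GOOD := by
  intro N A B _ S _ hCK b ε C hε hC
  obtain ⟨E, δ, r, hδ, H⟩ := Gd_all hCK b ε C hε hC
  refine ⟨E, δ, r + 1, hδ, fun D hD hE m j hmj => ?_⟩
  rw [← To_iter_coe, iter_theta hCK D b j m (by omega)]
  refine (norm_theta_iter hCK j _).trans ?_
  refine H D (fun m z => ?_) hE (m - j) (by omega)
  rw [To_iter_coe]
  exact hD m z

end Run7.h559.CE
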